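import Mathlib
import Pool.Agent.Y704.PC.Stm

set_option autoImplicit false

/-! Project PC: `[0,1] x T` with circles attached is a locally connected continuum. -/

open Set Topology

namespace Pool.Agent.Y799.PC

open Pool.Agent.Y704.PC

theorem lc_sub {Z : Type} [TopologicalSpace Z] (Y : Set Z)
    (h : ∀ x ∈ Y, ∀ U : Set Z, IsOpen U → x ∈ U → ∃ V ∈ 𝓝 x, ∀ y ∈ V, y ∈ Y →
      ∃ S : Set Z, S ⊆ Y ∧ IsPreconnected S ∧ x ∈ S ∧ y ∈ S ∧ S ⊆ U) :
    LocallyConnectedSpace ↥Y := by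
  apply lc_of_joined
  rintro ⟨x, hx⟩ U hU
  rw [mem_nhds_subtype] at hU
  obtain ⟨U', hU', hsub⟩ := hU
  obtain ⟨U'', hU'', hop, hxU⟩ := mem_nhds_iff.1 hU'
  obtain ⟨V, hV, hS⟩ := h x hx U'' hop hxU
  refine ⟨Subtype.val ⁻¹' V, (mem_nhds_subtype _ _ _).2 ⟨V, hV, subset_rfl⟩, ?_⟩
  rintro ⟨y, hy⟩ hyV
  obtain ⟨S, h1, h2, h3, h4, h5⟩ := hS y hyV hy
  refine ⟨Subtype.val ⁻¹' S, ?_, h3, h4, ?_⟩
  · rw [← Topology.IsInducing.subtypeVal.isPreconnected_image, Subtype.image_preimage_coe,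
      inter_eq_self_of_subset_right h1]
    exact h2
  · intro w hw
    exact hsub (hU'' (h5 hw))

section

variable {T : Type} (a : ℕ → T)

/-- the circle attached at `(1, a k)` -/
noncomputable def ci (k : ℕ) (w : ℂ) : ℝ × T × (ℕ → ℂ) := (1, a k, Pi.single k w)

theorem ci_mem (k : ℕ) {w : ℂ} (hw : ‖w + 1‖ = 1) : ci a k w ∈ Yset a := by
  refine ⟨zero_le_one, le_refl _, ?_, ?_, ?_⟩
  · intro j
    show ‖(Pi.single k w : ℕ → ℂ) j + 1‖ = 1
    by_cases h : j = k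
    · subst h
      rw [Pi.single_eq_same]
      exact hw
    · rw [Pi.single_eq_of_ne h]
      simp
  · intro j
    show (Pi.single k w : ℕ → ℂ) j = 0 ∨ ((1 : ℝ) = 1 ∧ a k = a j)
    by_cases h : j = k
    · subst h
      exact Or.inr ⟨rfl, rfl⟩
    · exact Or.inl (Pi.single_eq_of_ne h _)
  · intro i j hij
    show (Pi.single k w : ℕ → ℂ) i = 0 ∨ (Pi.single k w : ℕ → ℂ) j = 0
    by_cases h : i = k
    · subst h
      exact Or.inr (Pi.single_eq_of_ne (Ne.symm hij) _)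
    · exact Or.inl (Pi.single_eq_of_ne h _)

theorem zero_mem {t : ℝ} (h0 : 0 ≤ t) (h1 : t ≤ 1) (q : T) :
    ((t, q, 0) : ℝ × T × (ℕ → ℂ)) ∈ Yset a := by
  refine ⟨h0, h1, ?_, ?_, ?_⟩
  · intro j
    show ‖(0 : ℂ) + 1‖ = 1
    simp
  · exact fun j => Or.inl rfl
  · exact fun i j _ => Or.inl rfl

theorem eq_ci {y : ℝ × T × (ℕ → ℂ)} (hy : y ∈ Yset a) {k : ℕ} (hk : y.2.2 k ≠ 0) :
    y = ci a k (y.2.2 k) ∧ ‖y.2.2 k + 1‖ = 1 := by
  obtain ⟨-, -, h3, h4, h5⟩ := hy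
  refine ⟨?_, h3 k⟩
  obtain ⟨h6, h7⟩ := (h4 k).resolve_left hk
  refine Prod.ext h6 (Prod.ext h7 ?_)
  show y.2.2 = Pi.single k (y.2.2 k)
  funext j
  by_cases h : j = k
  · subst h
    rw [Pi.single_eq_same]
  · rw [Pi.single_eq_of_ne h]
    exact (h5 j k h).resolve_right hk

theorem eq_zero {y : ℝ × T × (ℕ → ℂ)} (hk : ∀ k, y.2.2 k = 0) :
    y = (y.1, y.2.1, 0) := by
  refine Prod.ext rfl (Prod.ext rfl ?_)
  funext j
  exact hk j

variable [TopologicalSpace T]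

theorem cont_ci (k : ℕ) : Continuous (ci a k) := by
  unfold ci
  refine continuous_const.prodMk (continuous_const.prodMk ?_)
  exact continuous_single (A := fun _ : ℕ => ℂ) k

/-- a part of the circle -/
theorem arc (hA : StArc) (k : ℕ) (c : ℝ) {w₀ : ℂ} (hw : ‖w₀ + 1‖ = 1) :
    IsPreconnected (ci a k '' {w : ℂ | ‖w + 1‖ = 1 ∧ ‖w - w₀‖ ≤ c}) := by
  apply IsPreconnected.image _ _ (cont_ci a k).continuousOn
  have h := hA 1 c w₀ (by push_cast; exact hw)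
  simpa using h

/-- the part of `[0,1] x T` -/
theorem base_pre {A : Set ℝ} {B : Set T} (hA : IsPreconnected A) (hB : IsPreconnected B) :
    IsPreconnected ((fun p : ℝ × T => ((p.1, p.2, 0) : ℝ × T × (ℕ → ℂ))) '' (A ×ˢ B)) := by
  apply (hA.prod hB).image
  exact (continuous_fst.prodMk (continuous_snd.prodMk continuous_const)).continuousOn

theorem compact [T2Space T] [CompactSpace T] : IsCompact (Yset a) := by
  have hK : IsCompact ((Icc (0 : ℝ) 1) ×ˢ ((univ : Set T) ×ˢ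
      (Set.pi univ fun _ : ℕ => Metric.sphere (-1 : ℂ) 1))) :=
    isCompact_Icc.prod (isCompact_univ.prod (isCompact_univ_pi fun _ => isCompact_sphere _ _))
  apply hK.of_isClosed_subset
  · have h1 : IsClosed {y : ℝ × T × (ℕ → ℂ) | 0 ≤ y.1} := isClosed_le continuous_const continuous_fst
    have h2 : IsClosed {y : ℝ × T × (ℕ → ℂ) | y.1 ≤ 1} := isClosed_le continuous_fst continuous_const
    have hc : ∀ k, Continuous fun y : ℝ × T × (ℕ → ℂ) => y.2.2 k := fun k =>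
      (continuous_apply k).comp (continuous_snd.comp continuous_snd)
    have h3 : IsClosed (⋂ k, {y : ℝ × T × (ℕ → ℂ) | ‖y.2.2 k + 1‖ = 1}) :=
      isClosed_iInter fun k => isClosed_eq ((hc k).add continuous_const).norm continuous_const
    have h4 : IsClosed (⋂ k, ({y : ℝ × T × (ℕ → ℂ) | y.2.2 k = 0} ∪
        ({y : ℝ × T × (ℕ → ℂ) | y.1 = 1} ∩ {y : ℝ × T × (ℕ → ℂ) | y.2.1 = a k}))) :=
      isClosed_iInter fun k => (isClosed_eq (hc k) continuous_const).union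
        ((isClosed_eq continuous_fst continuous_const).inter
          (isClosed_eq (continuous_fst.comp continuous_snd) continuous_const))
    have h5 : IsClosed (⋂ p : {p : ℕ × ℕ // p.1 ≠ p.2},
        ({y : ℝ × T × (ℕ → ℂ) | y.2.2 p.1.1 = 0} ∪ {y : ℝ × T × (ℕ → ℂ) | y.2.2 p.1.2 = 0})) :=
      isClosed_iInter fun p => (isClosed_eq (hc p.1.1) continuous_const).union
        (isClosed_eq (hc p.1.2) continuous_const)
    have h6 := h1.inter (h2.inter (h3.inter (h4.inter h5)))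
    convert h6 using 1
    ext y
    constructor
    · rintro ⟨a1, a2, a3, a4, a5⟩
      exact ⟨a1, a2, mem_iInter.2 a3, mem_iInter.2 a4, mem_iInter.2 fun p => a5 _ _ p.2⟩
    · rintro ⟨a1, a2, a3, a4, a5⟩
      exact ⟨a1, a2, fun k => mem_iInter.1 a3 k, fun k => mem_iInter.1 a4 k,
        fun j k hjk => mem_iInter.1 a5 ⟨(j, k), hjk⟩⟩
  · rintro y ⟨a1, a2, a3, a4, a5⟩
    refine ⟨⟨a1, a2⟩, mem_univ _, ?_⟩
    intro k _
    rw [mem_sphere_iff_norm, sub_neg_eq_add]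
    exact a3 k

theorem connected (hA : StArc) [ConnectedSpace T] : IsConnected (Yset a) := by
  obtain ⟨q₀⟩ : Nonempty T := inferInstance
  refine ⟨⟨_, zero_mem a zero_le_one le_rfl q₀⟩, ?_⟩
  have hb : IsPreconnected ((fun p : ℝ × T => ((p.1, p.2, 0) : ℝ × T × (ℕ → ℂ))) ''
      (Icc (0 : ℝ) 1 ×ˢ (univ : Set T))) := base_pre isPreconnected_Icc isPreconnected_univ
  have hbs : ((fun p : ℝ × T => ((p.1, p.2, 0) : ℝ × T × (ℕ → ℂ))) ''
      (Icc (0 : ℝ) 1 ×ˢ (univ : Set T))) ⊆ Yset a := by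
    rintro _ ⟨p, hp, rfl⟩
    exact zero_mem a hp.1.1 hp.1.2 _
  apply isPreconnected_of_forall ((1, q₀, 0) : ℝ × T × (ℕ → ℂ))
  intro y hy
  by_cases hz : ∀ k, y.2.2 k = 0
  · refine ⟨_, hbs, ⟨(1, q₀), ⟨⟨zero_le_one, le_rfl⟩, mem_univ _⟩, rfl⟩, ?_, hb⟩
    exact ⟨(y.1, y.2.1), ⟨⟨hy.1, hy.2.1⟩, mem_univ _⟩, (eq_zero hz).symm⟩
  · push Not at hz
    obtain ⟨k, hk⟩ := hz
    obtain ⟨h1, h2⟩ := eq_ci a hy hk
    have hs := arc a hA k 2 (w₀ := 0) (by simp)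
    refine ⟨_, union_subset hbs ?_, Or.inl ⟨(1, q₀), ⟨⟨zero_le_one, le_rfl⟩, mem_univ _⟩, rfl⟩,
      Or.inr ?_, IsPreconnected.union (ci a k 0) ?_ ?_ hb hs⟩
    · rintro _ ⟨w, hw, rfl⟩
      exact ci_mem a k hw.1
    · refine ⟨y.2.2 k, ⟨h2, ?_⟩, h1.symm⟩
      rw [sub_zero]
      have h3 : ‖y.2.2 k‖ = ‖(y.2.2 k + 1) - 1‖ := by rw [add_sub_cancel_right]
      have h4 := norm_sub_le (y.2.2 k + 1) 1
      rw [h3]
      rw [h2, norm_one] at h4
      linarith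
    · refine ⟨(1, a k), ⟨⟨zero_le_one, le_rfl⟩, mem_univ _⟩, ?_⟩
      show ((1, a k, 0) : ℝ × T × (ℕ → ℂ)) = (1, a k, Pi.single k 0)
      rw [Pi.single_zero]
    · exact ⟨0, ⟨by simp, by simp⟩, rfl⟩

theorem locconn (hA : StArc) [LocallyConnectedSpace T] : LocallyConnectedSpace ↥(Yset a) := by
  apply lc_sub
  intro x hx U hU hxU
  by_cases hz : ∀ k, x.2.2 k = 0
  · have hx0 := eq_zero hz
    have hU1 : U ∈ 𝓝 ((x.1, x.2.1, 0) : ℝ × T × (ℕ → ℂ)) := by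
      rw [← hx0]
      exact hU.mem_nhds hxU
    obtain ⟨At, hAt, W, hW, hsub⟩ := mem_nhds_prod_iff.1 hU1
    obtain ⟨Aq, hAq, B, hB, hsub2⟩ := mem_nhds_prod_iff.1 hW
    obtain ⟨δ, hδ, hAδ⟩ := Metric.mem_nhds_iff.1 hAt
    obtain ⟨C, hC, hCp, hCA⟩ := locallyConnectedSpace_iff_connected_subsets.1 ‹_› x.2.1 Aq hAq
    rw [nhds_pi, Filter.mem_pi'] at hB
    obtain ⟨F, t, ht, htB⟩ := hB
    have hF : ∃ ε > 0, ∀ k ∈ F, Metric.ball (0 : ℂ) ε ⊆ t k := by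
      clear htB
      induction F using Finset.induction with
      | empty => exact ⟨1, one_pos, fun k hk => absurd hk (Finset.notMem_empty k)⟩
      | insert k F hk ih =>
        obtain ⟨ε, hε, h1⟩ := ih
        obtain ⟨ε', hε', h2⟩ := Metric.mem_nhds_iff.1 (ht k)
        refine ⟨min ε ε', lt_min hε hε', ?_⟩
        intro j hj
        rcases Finset.mem_insert.1 hj with rfl | hj
        · exact (Metric.ball_subset_ball (min_le_right _ _)).trans h2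
        · exact (Metric.ball_subset_ball (min_le_left _ _)).trans (h1 j hj)
    obtain ⟨ε, hε, hεt⟩ := hF
    have hin : ∀ (t' : ℝ) (q' : T) (z' : ℕ → ℂ), t' ∈ Metric.ball x.1 δ → q' ∈ C →
        (∀ k ∈ F, ‖z' k‖ < ε) → ((t', q', z') : ℝ × T × (ℕ → ℂ)) ∈ U := by
      intro t' q' z' h1 h2 h3
      apply hsub
      refine ⟨hAδ h1, hsub2 ⟨hCA h2, htB ?_⟩⟩
      intro k hk
      apply hεt k hk
      rw [Metric.mem_ball, dist_zero_right]
      exact h3 k hk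
    have hIp : IsPreconnected (Metric.ball x.1 δ ∩ Icc (0 : ℝ) 1) := by
      rw [Real.ball_eq_Ioo]
      exact (ordConnected_Ioo.inter ordConnected_Icc).isPreconnected
    have hS0 := base_pre hIp hCp
    have hS0U : ((fun p : ℝ × T => ((p.1, p.2, 0) : ℝ × T × (ℕ → ℂ))) ''
        ((Metric.ball x.1 δ ∩ Icc (0 : ℝ) 1) ×ˢ C)) ⊆ U := by
      rintro _ ⟨p, hp, rfl⟩
      exact hin _ _ _ hp.1.1 hp.2 fun k _ => by
        show ‖(0 : ℂ)‖ < ε
        rw [norm_zero]; exact hε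
    have hS0Y : ((fun p : ℝ × T => ((p.1, p.2, 0) : ℝ × T × (ℕ → ℂ))) ''
        ((Metric.ball x.1 δ ∩ Icc (0 : ℝ) 1) ×ˢ C)) ⊆ Yset a := by
      rintro _ ⟨p, hp, rfl⟩
      exact zero_mem a hp.1.2.1 hp.1.2.2 _
    have hxS0 : x ∈ ((fun p : ℝ × T => ((p.1, p.2, 0) : ℝ × T × (ℕ → ℂ))) ''
        ((Metric.ball x.1 δ ∩ Icc (0 : ℝ) 1) ×ˢ C)) :=
      ⟨(x.1, x.2.1), ⟨⟨Metric.mem_ball_self hδ, hx.1, hx.2.1⟩, mem_of_mem_nhds hC⟩, hx0.symm⟩
    refine ⟨{y | y.1 ∈ Metric.ball x.1 δ ∧ y.2.1 ∈ C ∧ ∀ k ∈ F, ‖y.2.2 k‖ < ε}, ?_, ?_⟩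
    · have n1 : ∀ᶠ y : ℝ × T × (ℕ → ℂ) in 𝓝 x, y.1 ∈ Metric.ball x.1 δ :=
        (continuous_fst.tendsto x) (Metric.ball_mem_nhds _ hδ)
      have n2 : ∀ᶠ y : ℝ × T × (ℕ → ℂ) in 𝓝 x, y.2.1 ∈ C :=
        ((continuous_fst.comp continuous_snd).tendsto x) hC
      have n3 : ∀ᶠ y : ℝ × T × (ℕ → ℂ) in 𝓝 x, ∀ k ∈ F, ‖y.2.2 k‖ < ε := by
        rw [Filter.eventually_all_finset]
        intro k _
        have hc : Continuous fun y : ℝ × T × (ℕ → ℂ) => ‖y.2.2 k‖ :=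
          ((continuous_apply k).comp (continuous_snd.comp continuous_snd)).norm
        apply (hc.tendsto x).eventually_lt_const
        rw [hz k, norm_zero]
        exact hε
      filter_upwards [n1, n2, n3] with y h1 h2 h3
      exact ⟨h1, h2, h3⟩
    · rintro y ⟨hy1, hy2, hy3⟩ hyY
      by_cases hyz : ∀ k, y.2.2 k = 0
      · refine ⟨_, hS0Y, hS0, hxS0, ?_, hS0U⟩
        exact ⟨(y.1, y.2.1), ⟨⟨hy1, hyY.1, hyY.2.1⟩, hy2⟩, (eq_zero hyz).symm⟩
      · push Not at hyz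
        obtain ⟨k, hk⟩ := hyz
        obtain ⟨h1, h2⟩ := eq_ci a hyY hk
        have e1 : y.1 = 1 := congrArg (fun p : ℝ × T × (ℕ → ℂ) => p.1) h1
        have e2 : y.2.1 = a k := congrArg (fun p : ℝ × T × (ℕ → ℂ) => p.2.1) h1
        rw [e1] at hy1
        rw [e2] at hy2
        have hs := arc a hA k ‖y.2.2 k‖ (w₀ := 0) (by simp)
        refine ⟨_, union_subset hS0Y ?_, IsPreconnected.union (ci a k 0) ?_ ?_ hS0 hs,
          Or.inl hxS0, Or.inr ⟨y.2.2 k, ⟨h2, by rw [sub_zero]⟩, h1.symm⟩,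
          union_subset hS0U ?_⟩
        · rintro _ ⟨w, hw, rfl⟩
          exact ci_mem a k hw.1
        · refine ⟨(1, a k), ⟨⟨hy1, zero_le_one, le_rfl⟩, hy2⟩, ?_⟩
          show ((1, a k, 0) : ℝ × T × (ℕ → ℂ)) = (1, a k, Pi.single k 0)
          rw [Pi.single_zero]
        · exact ⟨0, ⟨by simp, by simp⟩, rfl⟩
        · rintro _ ⟨w, hw, rfl⟩
          refine hin _ _ _ hy1 hy2 ?_
          intro j hj
          by_cases hjk : j = k
          · subst hjk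
            rw [Pi.single_eq_same]
            have h3 := hw.2
            rw [sub_zero] at h3
            exact lt_of_le_of_lt h3 (hy3 j hj)
          · rw [Pi.single_eq_of_ne hjk, norm_zero]
            exact hε
  · push Not at hz
    obtain ⟨k, hk⟩ := hz
    obtain ⟨h1, h2⟩ := eq_ci a hx hk
    have hU2 : ci a k ⁻¹' U ∈ 𝓝 (x.2.2 k) := by
      apply (hU.preimage (cont_ci a k)).mem_nhds
      show ci a k (x.2.2 k) ∈ U
      rw [← h1]
      exact hxU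
    obtain ⟨ε, hε, hεU⟩ := Metric.mem_nhds_iff.1 hU2
    refine ⟨{y | ‖y.2.2 k - x.2.2 k‖ < min ε ‖x.2.2 k‖}, ?_, ?_⟩
    · have hc : Continuous fun y : ℝ × T × (ℕ → ℂ) => ‖y.2.2 k - x.2.2 k‖ :=
        (((continuous_apply k).comp (continuous_snd.comp continuous_snd)).sub
          continuous_const).norm
      apply (hc.tendsto x).eventually_lt_const
      rw [sub_self, norm_zero]
      exact lt_min hε (norm_pos_iff.2 hk)
    · intro y hy hyY
      have hy' : ‖y.2.2 k - x.2.2 k‖ < min ε ‖x.2.2 k‖ := hy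
      have hyk : y.2.2 k ≠ 0 := by
        intro h0
        rw [h0, zero_sub, norm_neg] at hy'
        exact absurd (lt_of_lt_of_le hy' (min_le_right _ _)) (lt_irrefl _)
      obtain ⟨h3, h4⟩ := eq_ci a hyY hyk
      refine ⟨_, ?_, arc a hA k ‖y.2.2 k - x.2.2 k‖ h2, ?_, ?_, ?_⟩
      · rintro _ ⟨w, hw, rfl⟩
        exact ci_mem a k hw.1
      · refine ⟨x.2.2 k, ⟨h2, ?_⟩, h1.symm⟩
        rw [sub_self, norm_zero]
        exact norm_nonneg _
      · exact ⟨y.2.2 k, ⟨h4, le_rfl⟩, h3.symm⟩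
      · rintro _ ⟨w, hw, rfl⟩
        apply hεU
        rw [Metric.mem_ball, dist_eq_norm]
        exact lt_of_le_of_lt hw.2 (lt_of_lt_of_le hy' (min_le_left _ _))

end

theorem t_Y (hA : StArc) : StY := by
  intro T _ _ _ _ _ a
  exact ⟨compact a, isConnected_iff_connectedSpace.1 (connected a hA), locconn a hA⟩

end Pool.Agent.Y799.PC
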